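import Pool.Agent.H7.LP.Targets

/-!
# Codes are Borel
-/

set_option autoImplicit false

open Set Filter Topology

namespace Pool.Agent.H4.LPG

open Pool.Agent.H7.LP

private theorem proj_closed {T G : Type} [TopologicalSpace T] [TopologicalSpace G] (C : Set G)
    (hC : IsCompact C) (E : Set (T × G)) (hE : IsClosed E) :
    IsClosed {t : T | ∃ h ∈ C, (t, h) ∈ E} := by
  haveI : CompactSpace C := isCompact_iff_compactSpace.mp hC
  have h1 : IsClosed ((fun p : T × C => (p.1, (p.2 : G))) ⁻¹' E) := hE.preimage (by fun_prop)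
  have h2 := isClosedMap_fst_of_compactSpace _ h1
  have h3 : {t : T | ∃ h ∈ C, (t, h) ∈ E} =
      Prod.fst '' ((fun p : T × C => (p.1, (p.2 : G))) ⁻¹' E) := by
    ext t
    constructor
    · rintro ⟨h, hh, he⟩
      exact ⟨(t, ⟨h, hh⟩), he, rfl⟩
    · rintro ⟨⟨t', h⟩, he, rfl⟩
      exact ⟨h, h.2, he⟩
  rw [h3]
  exact h2

private theorem open_ext {G : Type} [Group G] [TopologicalSpace G] [IsTopologicalGroup G]
    (K D H : Subgroup G) (hKD : K ≤ D) (hDH : D ≤ H) (hH : IsOpen (H : Set G))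
    (ho : OpenIn K D) :
    ∃ O : Set G, IsOpen O ∧ (∀ a ∈ O, a ∈ H) ∧ (∀ a ∈ K, a ∈ O) ∧ ∀ a ∈ O, a ∈ D → a ∈ K := by
  obtain ⟨U, hU, h⟩ := ho
  refine ⟨(⋃ g ∈ K, (fun a => a * g⁻¹) ⁻¹' interior U) ∩ H, ?_, fun a ha => ha.2, ?_, ?_⟩
  · exact (isOpen_biUnion fun g _ => isOpen_interior.preimage (by fun_prop)).inter hH
  · intro a ha
    refine ⟨mem_iUnion₂.mpr ⟨a, ha, ?_⟩, hDH (hKD ha)⟩
    show a * a⁻¹ ∈ interior U
    rw [mul_inv_cancel]
    exact mem_interior_iff_mem_nhds.mpr hU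
  · rintro a ⟨ha, -⟩ haD
    obtain ⟨g, hg, hag⟩ := mem_iUnion₂.mp ha
    have h1 : a * g⁻¹ ∈ K := h _ (D.mul_mem haD (D.inv_mem (hKD hg))) (interior_subset hag)
    simpa using K.mul_mem h1 hg

private theorem key (h1 : T_LAB) (h2 : T_SGC) (h3 : T_OCI) (h4 : T_CLR) {G X : Type} [Group G]
    [TopologicalSpace G] [IsTopologicalGroup G] [PolishSpace G] [MeasurableSpace G] [BorelSpace G]
    [MeasurableSpace X] [StandardBorelSpace X] (L : LPD G) (M : Subgroup G) [MulAction M X]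
    (Y : Hit M X) (S : Sys L Y) (q N : ℕ) :
    ∃ F : Set (X × (ℕ × ℕ → G)), MeasurableSet F ∧ ∀ p : X × (ℕ × ℕ → G),
      (∀ j, S.Node p.1 q (p.2 (q, j))) →
      (p ∈ F ↔ ∃ g, S.Node p.1 q g ∧ ∀ j, N ≤ j → g * (p.2 (q, j))⁻¹ ∉ S.K q) := by
  have pc : Piece (L.R (S.k q)) (L.H (S.k q)) := L.piece (S.k q)
  obtain ⟨-, lb2, lb3, -, -, -, -⟩ := h1 G
  obtain ⟨C, hC, hCH, hCR⟩ := h2 G _ _ pc
  obtain ⟨g, hg⟩ := h3 G _ pc.op
  obtain ⟨t, ht1, ht2, -, ht4⟩ := h4 G X M Y _ _ g pc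
  obtain ⟨O, hO, hOH, hKO, hOK⟩ := open_ext (S.K q) (Stb (L.H (S.k q)) (S.y q)) (L.H (S.k q))
    (S.le q) (fun a ha => ha.1) pc.op (S.opn q)
  -- nodes
  have hnd : ∀ (x : X) (a b : G), S.Node x q a → S.Node x q b → a * b⁻¹ ∈ O →
      a * b⁻¹ ∈ S.K q := by
    intro x a b ha hb hab
    refine hOK _ hab ⟨hOH _ hab, ?_⟩
    have e1 : tr (a * b⁻¹) (S.y q) = lab (L.R (S.k q)) (tr (a * b⁻¹) (tr b (Y.C x))) := by
      rw [lb2 _ _ _ pc _ (hOH _ hab)]
      rw [show lab (L.R (S.k q)) (tr b (Y.C x)) = S.y q from hb]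
    rw [e1, ← tr_mul, inv_mul_cancel_right]
    exact ha
  refine ⟨⋃ i : ℕ, ⋃ l : ℕ, {p | ∃ h ∈ C l, (p, h) ∈
      ((fun z : (X × (ℕ × ℕ → G)) × G => (z.1.1, z.2)) ⁻¹' {p : X × G | p.2 ∈ L.H (S.k q) ∧
        lab (L.R (S.k q)) (tr (p.2 * g i) (Y.C p.1)) = S.y q}) ∩
      ⋂ j : ℕ, ⋂ (_ : N ≤ j),
        (fun z : (X × (ℕ × ℕ → G)) × G => z.2 * g i * (z.1.2 (q, j))⁻¹) ⁻¹' Oᶜ}, ?_, ?_⟩
  · letI := t
    haveI := ht1
    haveI := ht2
    refine MeasurableSet.iUnion fun i => MeasurableSet.iUnion fun l =>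
      IsClosed.measurableSet (proj_closed _ (hC l) _ ?_)
    refine IsClosed.inter ((ht4 i (S.y q) (S.ycl q)).preimage (by fun_prop)) ?_
    exact isClosed_iInter fun j => isClosed_iInter fun _ =>
      hO.isClosed_compl.preimage (by fun_prop)
  · intro p hp
    simp only [mem_iUnion, mem_setOf_eq, mem_inter_iff, mem_iInter, mem_preimage, mem_compl_iff]
    constructor
    · rintro ⟨i, l, h, hh, ⟨-, hy⟩, hno⟩
      exact ⟨h * g i, hy, fun j hj hjK => hno j hj (hKO _ hjK)⟩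
    · rintro ⟨a, ha, hno⟩
      obtain ⟨i, hi⟩ := hg a
      obtain ⟨l, c, hc, hcr⟩ := hCR _ hi
      have hcH : c ∈ L.H (S.k q) := hCH l c hc
      have hr : c * (c⁻¹ * (a * (g i)⁻¹)) * c⁻¹ ∈ L.R (S.k q) := pc.nor c hcH _ hcr
      have e2 : c * (c⁻¹ * (a * (g i)⁻¹)) * c⁻¹ * (c * g i) = a := by group
      set r := c * (c⁻¹ * (a * (g i)⁻¹)) * c⁻¹ with hrdef
      have hy : lab (L.R (S.k q)) (tr (c * g i) (Y.C p.1)) = S.y q := by
        have e3 : lab (L.R (S.k q)) (tr a (Y.C p.1)) = S.y q := ha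
        rw [← e2, tr_mul, lb2 _ _ _ pc r (pc.le hr), lb3 _ _ r hr] at e3
        exact e3
      refine ⟨i, l, c, hc, ⟨hcH, hy⟩, fun j hj hjO => hno j hj ?_⟩
      have h5 : c * g i * (p.2 (q, j))⁻¹ ∈ S.K q := hnd p.1 _ _ hy (hp j) hjO
      have h6 : r * (c * g i * (p.2 (q, j))⁻¹) ∈ S.K q := (S.K q).mul_mem (S.ge q hr) h5
      rwa [← mul_assoc, e2] at h6

theorem pf_BCO (h1 : T_LAB) (h2 : T_SGC) (h3 : T_OCI) (h4 : T_CLR) (h5 : T_BND) (h6 : T_BPR) :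
    T_BCO := by
  intro G X _ _ _ _ _ _ _ _ L M _ Y S
  choose F hF hFF using key h1 h2 h3 h4 L M Y S
  have e1 : {p : X × (ℕ × ℕ → G) | S.IsCode p.1 p.2} =
      ⋂ q : ℕ, ({p | ∃ g, S.Node p.1 q g}ᶜ ∪
        ((⋂ j : ℕ, {p | S.Node p.1 q (p.2 (q, j))}) ∩ ⋂ N : ℕ, (F q N)ᶜ)) := by
    ext p
    simp only [mem_setOf_eq, mem_iInter, mem_union, mem_compl_iff, mem_inter_iff]
    constructor
    · intro hc q
      by_cases hp : ∃ g, S.Node p.1 q g
      · right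
        obtain ⟨g, hg⟩ := hp
        refine ⟨fun j => hc.node q g hg j, fun N hN => ?_⟩
        obtain ⟨g', hg', hN'⟩ := (hFF q N p (fun j => hc.node q g hg j)).mp hN
        obtain ⟨j, hj, hjK⟩ := hc.all q g' hg' N
        exact hN' j hj hjK
      · exact Or.inl hp
    · intro hc
      refine ⟨fun q g hg j => ?_, fun q g hg N => ?_⟩
      · rcases hc q with h | h
        · exact absurd ⟨g, hg⟩ h
        · exact h.1 j
      · rcases hc q with h | h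
        · exact absurd ⟨g, hg⟩ h
        · by_contra hcon
          push Not at hcon
          exact h.2 N ((hFF q N p h.1).mpr ⟨g, hg, hcon⟩)
  rw [e1]
  refine MeasurableSet.iInter fun q => MeasurableSet.union ?_ (MeasurableSet.inter ?_ ?_)
  · exact ((h6 G X L M Y S q).preimage measurable_fst).compl
  · refine MeasurableSet.iInter fun j => ?_
    have hm : Measurable fun p : X × (ℕ × ℕ → G) => (p.1, p.2 (q, j)) :=
      measurable_fst.prodMk ((measurable_pi_apply (q, j)).comp measurable_snd)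
    exact (h5 G X L M Y S q).preimage hm
  · exact MeasurableSet.iInter fun N => (hF q N).compl

end Pool.Agent.H4.LPG
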